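import Pool.Agent.helper95.LC.NF

/-! # Subfields of cyclotomic fields of odd conductor -/

namespace Pool.Agent.helper95.LC

open Pool.Agent.helper11.SG NumberField IsCyclotomicExtension.Rat

/-! ### Reducedness modulo two -/

lemma two_dvd_top {m : ℕ} [NeZero m] {L : Type*} [Field L] [NumberField L]
    [IsCyclotomicExtension {m} ℚ L] (hm : Nat.Coprime 2 m) (x : 𝓞 L) :
    (2 : 𝓞 L) ∣ x ^ (2 ^ m.totient) - x := by
  set R := 𝓞 L ⧸ Ideal.span {(2 : 𝓞 L)} with hR
  rw [← Ideal.mem_span_singleton, ← Ideal.Quotient.eq_zero_iff_mem, map_sub, map_pow, sub_eq_zero]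
  have h2 : (2 : R) = 0 := by
    have h1 : Ideal.Quotient.mk (Ideal.span {(2 : 𝓞 L)}) 2 = 0 :=
      Ideal.Quotient.eq_zero_iff_mem.2 (Ideal.mem_span_singleton_self _)
    rw [map_ofNat] at h1
    exact h1
  rcases subsingleton_or_nontrivial R with hs | hn
  · exact Subsingleton.elim _ _
  have hchar : CharP R 2 := CharTwo.of_one_ne_zero_of_two_eq_zero one_ne_zero h2
  have hζ := IsCyclotomicExtension.zeta_spec m ℚ L
  let f1 : 𝓞 L →ₐ[ℤ] R :=
    ((iterateFrobenius R 2 m.totient).comp (Ideal.Quotient.mk (Ideal.span {(2 : 𝓞 L)}))).toIntAlgHom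
  let f2 : 𝓞 L →ₐ[ℤ] R := (Ideal.Quotient.mk (Ideal.span {(2 : 𝓞 L)})).toIntAlgHom
  have key : f1 = f2 := by
    apply AlgHom.ext_of_adjoin_eq_top (adjoin_singleton_eq_top hζ)
    intro z hz
    rw [Set.mem_singleton_iff] at hz
    subst hz
    have h3 : hζ.toInteger ^ (2 ^ m.totient) = hζ.toInteger ^ 1 := by
      apply pow_eq_pow_of_modEq (Nat.ModEq.pow_totient hm)
      exact hζ.toInteger_isPrimitiveRoot.pow_eq_one
    rw [pow_one] at h3
    change iterateFrobenius R 2 m.totient (Ideal.Quotient.mk _ hζ.toInteger) =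
      Ideal.Quotient.mk _ hζ.toInteger
    rw [iterateFrobenius_def, ← map_pow, h3]
  have := DFunLike.congr_fun key x
  exact this

lemma two_dvd_sub {m : ℕ} [NeZero m] {L : Type*} [Field L] [NumberField L]
    [IsCyclotomicExtension {m} ℚ L] (hm : Nat.Coprime 2 m)
    (M : IntermediateField ℚ L) (a : 𝓞 M) :
    (2 : 𝓞 M) ∣ a ^ (2 ^ m.totient) - a := by
  obtain ⟨b, hb⟩ := two_dvd_top hm (algebraMap (𝓞 M) (𝓞 L) a)
  let t : M := ((a : M) ^ (2 ^ m.totient) - a) / 2
  have ht2 : 2 * t = (a : M) ^ (2 ^ m.totient) - a := by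
    simp only [t]
    rw [mul_div_cancel₀]
    exact two_ne_zero
  have ht : algebraMap M L t = (b : L) := by
    have h1 := congrArg (fun z : 𝓞 L => (z : L)) hb
    have h2 := congrArg (algebraMap M L) ht2
    have h3 : (2 : L) ≠ 0 := two_ne_zero
    apply mul_left_cancel₀ h3
    rw [map_mul, map_ofNat] at h2
    rw [h2]
    simp only [map_sub, map_pow, map_mul, map_ofNat] at h1 ⊢
    exact h1
  have hint : IsIntegral ℤ t := by
    rw [← isIntegral_algebraMap_iff (algebraMap M L).injective, ht]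
    exact b.2
  refine ⟨⟨t, hint⟩, ?_⟩
  apply RingOfIntegers.ext
  simp only [map_sub, map_pow, map_mul, map_ofNat]
  exact ht2.symm

lemma reduced_of_pow {R : Type*} [CommRing R] {g : ℕ} (hg : 1 ≤ g)
    (h : ∀ x : R, x ^ (2 ^ g) = x) : IsReduced R := by
  refine ⟨fun x hx => ?_⟩
  obtain ⟨k, hk⟩ := hx
  have hiter : ∀ j : ℕ, x ^ ((2 ^ g) ^ j) = x := by
    intro j
    induction j with
    | zero => simp
    | succ j ih => rw [pow_succ, pow_mul, ih, h]
  have h2 : k ≤ (2 ^ g) ^ k := by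
    have h3 : 2 ≤ 2 ^ g := by
      calc 2 = 2 ^ 1 := by norm_num
        _ ≤ 2 ^ g := Nat.pow_le_pow_right (by norm_num) hg
    calc k ≤ 2 ^ k := Nat.lt_two_pow_self.le
      _ ≤ (2 ^ g) ^ k := Nat.pow_le_pow_left h3 k
  rw [← hiter k]
  obtain ⟨d, hd⟩ := Nat.exists_eq_add_of_le h2
  rw [hd, pow_add, hk, zero_mul]

lemma isReduced_two {m : ℕ} [NeZero m] {L : Type*} [Field L] [NumberField L]
    [IsCyclotomicExtension {m} ℚ L] (hm : Nat.Coprime 2 m)
    (M : IntermediateField ℚ L) :
    IsReduced (𝓞 M ⧸ Ideal.span {(2 : 𝓞 M)}) := by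
  apply reduced_of_pow (g := m.totient) (Nat.totient_pos.2 (NeZero.pos m))
  intro x
  obtain ⟨a, rfl⟩ := Ideal.Quotient.mk_surjective x
  rw [← map_pow, ← sub_eq_zero, ← map_sub, Ideal.Quotient.eq_zero_iff_mem,
    Ideal.mem_span_singleton]
  exact two_dvd_sub hm M a

/-! ### Residue fields of degree `h` -/

/-- The trace of a finite field: an additive subgroup with many elements. -/
lemma card_range_trace {k : Type*} [Field k] [Finite k] {p h e : ℕ} [Fact p.Prime] [CharP k p]
    (hh : 1 ≤ h) (he : 1 ≤ e) (hk : Nat.card k = p ^ (h * e)) (T : k →+ k)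
    (hT : ∀ x, T x = ∑ j ∈ Finset.range e, x ^ (p ^ (h * j))) :
    p ^ h ≤ Nat.card T.range := by
  classical
  have := Fintype.ofFinite k
  have hp := (Fact.out : p.Prime)
  obtain ⟨e', rfl⟩ : ∃ e', e = e' + 1 := ⟨e - 1, by omega⟩
  let P : Polynomial k := ∑ j ∈ Finset.range (e' + 1), Polynomial.X ^ (p ^ (h * j))
  have hPdeg : P.natDegree ≤ p ^ (h * e') := by
    apply Polynomial.natDegree_sum_le_of_forall_le
    intro j hj
    rw [Polynomial.natDegree_X_pow]
    apply Nat.pow_le_pow_right hp.pos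
    apply Nat.mul_le_mul_left
    have := Finset.mem_range.1 hj
    omega
  have hP0 : P ≠ 0 := by
    intro h0
    have h1 : P.coeff (p ^ (h * e')) = 1 := by
      simp only [P, Polynomial.finsetSum_coeff, Polynomial.coeff_X_pow]
      rw [Finset.sum_eq_single e']
      · simp
      · intro j hj hne
        rw [if_neg]
        intro heq
        have h2 := Nat.pow_right_injective hp.two_le heq
        apply hne
        exact (Nat.eq_of_mul_eq_mul_left (by omega) h2).symm
      · intro h3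
        exact absurd (Finset.mem_range.2 (Nat.lt_succ_self e')) h3
    rw [h0] at h1
    simp at h1
  have hker : Nat.card T.ker ≤ p ^ (h * e') := by
    have h1 : Nat.card T.ker ≤ P.roots.toFinset.card := by
      rw [← Nat.card_eq_finsetCard]
      apply Nat.card_le_card_of_injective
        (fun x : T.ker => (⟨x.1, by
          rw [Multiset.mem_toFinset, Polynomial.mem_roots hP0, Polynomial.IsRoot.def]
          simp only [P, Polynomial.eval_finsetSum, Polynomial.eval_pow, Polynomial.eval_X]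
          rw [← hT]
          exact x.2⟩ : P.roots.toFinset))
      intro a b hab
      have h9 := congrArg (fun z : P.roots.toFinset => z.1) hab
      exact Subtype.ext h9
    exact h1.trans ((Multiset.toFinset_card_le _).trans ((Polynomial.card_roots' _).trans hPdeg))
  have h2 := AddSubgroup.card_mul_index T.ker
  rw [AddSubgroup.index_ker, hk] at h2
  by_contra hlt
  push Not at hlt
  have h3 : Nat.card T.ker * Nat.card T.range < p ^ (h * e') * p ^ h := by
    have hpos : 0 < p ^ (h * e') := pow_pos hp.pos _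
    calc _ ≤ p ^ (h * e') * Nat.card T.range := Nat.mul_le_mul_right _ hker
      _ < _ := Nat.mul_lt_mul_of_pos_left hlt hpos
  rw [h2, ← pow_add] at h3
  have h4 : h * (e' + 1) = h * e' + h := by ring
  rw [h4] at h3
  exact lt_irrefl _ h3

/-- For an odd conductor `m`, a prime `p` not dividing `m` and a divisor `h` of the order of `p`
modulo `m` there is a subfield of the cyclotomic field whose ring of integers maps onto every
field with `p ^ h` elements. -/
theorem exists_subfield {m : ℕ} [NeZero m] {L : Type*} [Field L] [NumberField L]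
    [hL : IsCyclotomicExtension {m} ℚ L] (p : ℕ) [hp : Fact p.Prime] (hpm : ¬ p ∣ m) {h : ℕ}
    (hh : 1 ≤ h) (hdvd : h ∣ orderOf (p : ZMod m)) :
    ∃ H : Subgroup Gal(L/ℚ), Nat.card H * h = orderOf (p : ZMod m) ∧
      ∀ (F : Type*) [Field F] [Finite F], Nat.card F = p ^ h →
        ∃ φ : 𝓞 (IntermediateField.fixedField H) →+* F, Function.Surjective φ := by
  classical
  have hcop : p.Coprime m := hp.out.coprime_iff_not_dvd.2 hpm
  obtain ⟨⟨P, hP1, hP2⟩⟩ := (Ideal.span {(p : ℤ)}).nonempty_primesOver (S := 𝓞 L)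
  obtain ⟨e, he⟩ := hdvd
  have hcardk : Nat.card (𝓞 L ⧸ P) = p ^ (h * e) := by
    have h1 := Ideal.pow_inertiaDeg p P
    rw [inertiaDeg_eq_of_not_dvd p L P hpm, he] at h1
    rw [Ideal.absNorm_apply, Submodule.cardQuot_apply] at h1
    exact h1.symm
  have hfin : Finite (𝓞 L ⧸ P) :=
    Nat.finite_of_card_ne_zero (by rw [hcardk]; exact pow_ne_zero _ hp.out.ne_zero)
  have _i1 : Fintype (𝓞 L ⧸ P) := Fintype.ofFinite _
  have hchar : CharP (𝓞 L ⧸ P) p :=
    charP_of_card_eq_prime_pow (f := h * e) (by rw [← Nat.card_eq_fintype_card, hcardk])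
  let φ : 𝓞 L →+* 𝓞 L ⧸ P := Ideal.Quotient.mk P
  have hφs : Function.Surjective φ := Ideal.Quotient.mk_surjective
  -- the Frobenius element
  let τ : Gal(L/ℚ) := (galEquivZMod m L).symm (ZMod.unitOfCoprime p hcop)
  have hζ := IsCyclotomicExtension.zeta_spec m ℚ L
  have hτζ : τ • hζ.toInteger = hζ.toInteger ^ p := by
    rw [galEquivZMod_smul_of_pow_eq m L τ (hζ.toInteger_isPrimitiveRoot.pow_eq_one)]
    simp only [τ, MulEquiv.apply_symm_apply, ZMod.coe_unitOfCoprime]
    apply pow_eq_pow_of_modEq _ (hζ.toInteger_isPrimitiveRoot.pow_eq_one)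
    rw [ZMod.val_natCast]
    exact Nat.mod_modEq _ _
  have hτ : ∀ x : 𝓞 L, φ (τ • x) = φ x ^ p := by
    intro x
    let f1 : 𝓞 L →ₐ[ℤ] 𝓞 L ⧸ P :=
      (φ.comp (MulSemiringAction.toRingHom Gal(L/ℚ) (𝓞 L) τ)).toIntAlgHom
    let f2 : 𝓞 L →ₐ[ℤ] 𝓞 L ⧸ P := ((frobenius (𝓞 L ⧸ P) p).comp φ).toIntAlgHom
    have key : f1 = f2 := by
      apply AlgHom.ext_of_adjoin_eq_top (adjoin_singleton_eq_top hζ)
      intro z hz
      rw [Set.mem_singleton_iff] at hz
      subst hz
      change φ (τ • hζ.toInteger) = (φ hζ.toInteger) ^ p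
      rw [hτζ, map_pow]
    exact DFunLike.congr_fun key x
  have hτi : ∀ (i : ℕ) (x : 𝓞 L), φ (τ ^ i • x) = φ x ^ (p ^ i) := by
    intro i
    induction i with
    | zero => intro x; simp
    | succ i ih =>
      intro x
      rw [pow_succ, mul_smul, ih, hτ, ← pow_mul, ← pow_succ']
  have hτf : τ ^ (h * e) = 1 := by
    have h1 : (ZMod.unitOfCoprime p hcop) ^ (h * e) = 1 := by
      rw [← he]
      apply Units.ext
      rw [Units.val_pow_eq_pow_val, ZMod.coe_unitOfCoprime, pow_orderOf_eq_one, Units.val_one]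
    simp only [τ]
    rw [← map_pow, h1, map_one]
  have he1 : 1 ≤ e := by
    rcases Nat.eq_zero_or_pos e with h0 | h0
    · exfalso
      rw [h0, mul_zero] at he
      have h1 : IsOfFinOrder (p : ZMod m) := by
        rw [isOfFinOrder_iff_pow_eq_one]
        refine ⟨m.totient, Nat.totient_pos.2 (NeZero.pos m), ?_⟩
        have h2 := ZMod.pow_totient (ZMod.unitOfCoprime p hcop)
        have h3 := congrArg Units.val h2
        rw [Units.val_pow_eq_pow_val, ZMod.coe_unitOfCoprime, Units.val_one] at h3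
        exact h3
      rw [orderOf_eq_zero_iff] at he
      exact he h1
    · exact h0
  -- the subfield
  let M : IntermediateField ℚ L := IntermediateField.fixedField (Subgroup.zpowers (τ ^ h))
  let ψ : 𝓞 M →+* 𝓞 L ⧸ P := φ.comp (algebraMap (𝓞 M) (𝓞 L))
  have hfix : ∀ a : 𝓞 M, τ ^ h • (algebraMap (𝓞 M) (𝓞 L) a) = algebraMap (𝓞 M) (𝓞 L) a := by
    intro a
    apply RingOfIntegers.ext
    have h1 : ((a : M) : L) ∈ M := (a : M).2
    rw [IntermediateField.mem_fixedField_iff] at h1
    exact h1 _ (Subgroup.mem_zpowers _)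
  have hψ1 : ∀ a : 𝓞 M, ψ a ^ (p ^ h) = ψ a := by
    intro a
    change (φ (algebraMap (𝓞 M) (𝓞 L) a)) ^ (p ^ h) = φ (algebraMap (𝓞 M) (𝓞 L) a)
    rw [← hτi, hfix]
  -- the trace
  let T : (𝓞 L ⧸ P) →+ (𝓞 L ⧸ P) :=
    ∑ j ∈ Finset.range e, ((iterateFrobenius (𝓞 L ⧸ P) p (h * j) : _ →+* _) : _ →+ _)
  have hT : ∀ x, T x = ∑ j ∈ Finset.range e, x ^ (p ^ (h * j)) := by
    intro x
    simp only [T, AddMonoidHom.finsetSum_apply]
    rfl
  let _ : Field (𝓞 L ⧸ P) := Fintype.fieldOfDomain _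
  have hTr := card_range_trace (k := 𝓞 L ⧸ P) (p := p) hh he1 hcardk T hT
  have hsub : (T.range : Set (𝓞 L ⧸ P)) ⊆ (ψ.range : Set (𝓞 L ⧸ P)) := by
    rintro _ ⟨x, rfl⟩
    obtain ⟨b, rfl⟩ := hφs x
    let s : 𝓞 L := ∑ j ∈ Finset.range e, τ ^ (h * j) • b
    have hs : τ ^ h • s = s := by
      simp only [s, Finset.smul_sum]
      obtain ⟨e', rfl⟩ : ∃ e', e = e' + 1 := ⟨e - 1, by omega⟩
      rw [Finset.sum_range_succ, Finset.sum_range_succ']
      congr 1
      · apply Finset.sum_congr rfl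
        intro j _
        rw [← mul_smul, ← pow_add]
        congr 2
        ring
      · rw [← mul_smul, ← pow_add, show h + h * e' = h * (e' + 1) by ring, hτf, mul_zero, pow_zero]
    have hsM : (s : L) ∈ M := by
      rw [IntermediateField.mem_fixedField_iff]
      intro g hg
      have h1 : Subgroup.zpowers (τ ^ h) ≤ MulAction.stabilizer Gal(L/ℚ) s := by
        rw [Subgroup.zpowers_le]
        exact hs
      have h2 : g • s = s := h1 hg
      exact congrArg (fun z : 𝓞 L => (z : L)) h2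
    have hint : IsIntegral ℤ (⟨(s : L), hsM⟩ : M) := by
      rw [← isIntegral_algebraMap_iff (algebraMap M L).injective]
      exact s.2
    refine ⟨⟨⟨(s : L), hsM⟩, hint⟩, ?_⟩
    have h3 : algebraMap (𝓞 M) (𝓞 L) ⟨⟨(s : L), hsM⟩, hint⟩ = s := by
      apply RingOfIntegers.ext
      rfl
    change φ (algebraMap (𝓞 M) (𝓞 L) ⟨⟨(s : L), hsM⟩, hint⟩) = T (φ b)
    rw [h3, hT]
    simp only [s, map_sum]
    apply Finset.sum_congr rfl
    intro j _
    rw [hτi]
  have hlow : p ^ h ≤ Nat.card ψ.range :=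
    hTr.trans (Nat.card_mono (Set.toFinite _) hsub)
  have hup : Nat.card ψ.range ≤ p ^ h := by
    have hX : (Polynomial.X ^ (p ^ h) - Polynomial.X : Polynomial (𝓞 L ⧸ P)) ≠ 0 :=
      FiniteField.X_pow_card_pow_sub_X_ne_zero _ (by omega) hp.out.one_lt
    have h1 : Nat.card ψ.range ≤
        (Polynomial.X ^ (p ^ h) - Polynomial.X : Polynomial (𝓞 L ⧸ P)).roots.toFinset.card := by
      rw [← Nat.card_eq_finsetCard]
      apply Nat.card_le_card_of_injective
        (fun x : ψ.range => (⟨x.1, by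
          obtain ⟨a, ha⟩ := x.2
          rw [Multiset.mem_toFinset, Polynomial.mem_roots hX, Polynomial.IsRoot.def]
          rw [Polynomial.eval_sub, Polynomial.eval_pow, Polynomial.eval_X, ← ha, hψ1, sub_self]⟩ :
            (Polynomial.X ^ (p ^ h) - Polynomial.X : Polynomial (𝓞 L ⧸ P)).roots.toFinset))
      intro a b hab
      have h9 := congrArg (fun z : (Polynomial.X ^ (p ^ h) - Polynomial.X :
        Polynomial (𝓞 L ⧸ P)).roots.toFinset => z.1) hab
      exact Subtype.ext h9
    refine h1.trans ((Multiset.toFinset_card_le _).trans ((Polynomial.card_roots' _).trans ?_))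
    rw [FiniteField.X_pow_card_pow_sub_X_natDegree_eq _ (by omega) hp.out.one_lt]
  have hcardH : Nat.card (Subgroup.zpowers (τ ^ h)) * h = orderOf (p : ZMod m) := by
    have h1 : orderOf τ = h * e := by
      have h2 : orderOf τ = orderOf (ZMod.unitOfCoprime p hcop) :=
        orderOf_injective (galEquivZMod m L).symm.toMonoidHom (galEquivZMod m L).symm.injective _
      rw [h2, ← orderOf_injective (Units.coeHom (ZMod m)) Units.coeHom_injective,
        Units.coeHom_apply, ZMod.coe_unitOfCoprime, he]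
    rw [Nat.card_zpowers, orderOf_pow, h1, Nat.gcd_mul_right_left,
      Nat.mul_div_cancel_left _ (by omega), he, mul_comm]
  refine ⟨Subgroup.zpowers (τ ^ h), hcardH, ?_⟩
  intro F _ _ hF
  let _ : Fintype F := Fintype.ofFinite F
  let _ : Fintype ψ.range := Fintype.ofFinite _
  let _ : Field ψ.range := Fintype.fieldOfDomain _
  have hcard : Fintype.card ψ.range = Fintype.card F := by
    rw [← Nat.card_eq_fintype_card, ← Nat.card_eq_fintype_card, hF]
    exact le_antisymm hup hlow
  let E := FiniteField.ringEquivOfCardEq hcard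
  exact ⟨E.toRingHom.comp ψ.rangeRestrict, E.surjective.comp ψ.rangeRestrict_surjective⟩

end Pool.Agent.helper95.LC
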