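import Pool.Agent.helper95.LC.Cyc

/-! # A positive constant for each odd modulus, and the density of the good residue classes -/

namespace Pool.Agent.helper95.LC

open Pool.Agent.helper11.SG NumberField

/-- For every odd `m` there is a positive constant that serves all primes `p` not dividing `m` and
all divisors `h` of the order of `p` modulo `m`. -/
theorem cyc_bound (m : ℕ) [NeZero m] (hm : Nat.Coprime 2 m) :
    ∃ c : ℝ, 0 < c ∧ ∀ p : ℕ, p.Prime → ¬ p ∣ m → ∀ h : ℕ, 1 ≤ h → h ∣ orderOf (p : ZMod m) →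
      ∀ (F : Type*) [Field F] [Finite F], Nat.card F = p ^ h →
        ∃ k : ℕ, c * (Nat.card F : ℝ) ^ (3 / 2 : ℝ) ≤ k ∧ Big F k := by
  have hm0 : NeZero ((m : ℕ) : ℚ) := ⟨by exact_mod_cast NeZero.ne m⟩
  let L := CyclotomicField m ℚ
  have hcyc : IsCyclotomicExtension {m} ℚ L := CyclotomicField.isCyclotomicExtension m ℚ
  have hfin : Finite (IntermediateField ℚ L) :=
    Field.finite_intermediateField_of_exists_primitive_element ℚ L
      (Field.exists_primitive_element ℚ L)
  have key : ∀ M : IntermediateField ℚ L, ∃ c : ℝ, 0 < c ∧ ∀ (F : Type _) [Field F] [Finite F]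
      (φ : 𝓞 M →+* F), Function.Surjective φ →
      ∃ k : ℕ, c * (Nat.card F : ℝ) ^ (3 / 2 : ℝ) ≤ k ∧ Big F k := by
    intro M
    have := isReduced_two hm M
    exact numberField_bound
  choose c hc0 hc using key
  obtain ⟨M₀, hM₀⟩ := Finite.exists_min c
  refine ⟨c M₀, hc0 M₀, ?_⟩
  intro p hp hpm h hh hdvd F _ _ hF
  have : Fact p.Prime := ⟨hp⟩
  obtain ⟨H, -, hM⟩ := exists_subfield (L := L) p hpm hh hdvd
  obtain ⟨φ, hφ⟩ := hM F hF
  obtain ⟨k, hk, hB⟩ := hc _ F φ hφ
  refine ⟨k, le_trans ?_ hk, hB⟩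
  exact mul_le_mul_of_nonneg_right (hM₀ _) (by positivity)

/-! ### Counting -/

/-- in a cyclic group whose order is divisible by `h`, at least one element in `h` has an order
divisible by `h` -/
lemma card_bad_le {G : Type*} [Group G] [Finite G] [IsCyclic G] {h : ℕ} (hh : 1 ≤ h)
    (hdvd : h ∣ Nat.card G) :
    (Nat.card {x : G // ¬ h ∣ orderOf x} : ℝ) ≤ (1 - 1 / h) * Nat.card G := by
  classical
  have := Fintype.ofFinite G
  obtain ⟨g, hg⟩ := IsCyclic.exists_generator (α := G)
  have hgn : orderOf g = Nat.card G := orderOf_eq_card_of_forall_mem_zpowers hg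
  obtain ⟨d, hd⟩ := hdvd
  have hnpos : 0 < Nat.card G := Nat.card_pos
  have hd1 : 1 ≤ d := by
    rcases Nat.eq_zero_or_pos d with h0 | h0
    · rw [h0, mul_zero] at hd
      omega
    · exact h0
  -- many good elements
  have hgood : d ≤ Nat.card {x : G // h ∣ orderOf x} := by
    have h1 : ∀ j : Fin d, h ∣ orderOf (g ^ (1 + h * j.1)) := by
      intro j
      rw [orderOf_pow, hgn]
      set b := Nat.gcd (Nat.card G) (1 + h * j.1) with hb
      have hb1 : b ∣ Nat.card G := Nat.gcd_dvd_left _ _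
      have hb2 : b ∣ 1 + h * j.1 := Nat.gcd_dvd_right _ _
      have hcop : Nat.Coprime h b := by
        have h3 : Nat.gcd h b ∣ 1 := by
          have h4 : Nat.gcd h b ∣ 1 + h * j.1 := (Nat.gcd_dvd_right h b).trans hb2
          have h5 : Nat.gcd h b ∣ h * j.1 := (Nat.gcd_dvd_left h b).mul_right _
          exact (Nat.dvd_add_left h5).1 h4
        exact Nat.dvd_one.1 h3
      have h6 : h * b ∣ Nat.card G := hcop.mul_dvd_of_dvd_of_dvd ⟨d, hd⟩ hb1
      obtain ⟨w, hw⟩ := h6
      have hb0 : 0 < b := Nat.gcd_pos_of_pos_left _ hnpos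
      refine ⟨w, ?_⟩
      rw [hw, show h * b * w = b * (h * w) by ring, Nat.mul_div_cancel_left _ hb0]
    have h2 : Function.Injective (fun j : Fin d => (⟨g ^ (1 + h * j.1), h1 j⟩ :
        {x : G // h ∣ orderOf x})) := by
      intro i j hij
      have h3 : g ^ (1 + h * i.1) = g ^ (1 + h * j.1) :=
        congrArg (fun z : {x : G // h ∣ orderOf x} => z.1) hij
      rw [pow_add, pow_add, mul_right_inj] at h3
      have h4 := pow_injOn_Iio_orderOf (x := g) (show h * i.1 ∈ Set.Iio (orderOf g) by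
        rw [Set.mem_Iio, hgn, hd]
        exact Nat.mul_lt_mul_of_pos_left i.2 hh) (show h * j.1 ∈ Set.Iio (orderOf g) by
        rw [Set.mem_Iio, hgn, hd]
        exact Nat.mul_lt_mul_of_pos_left j.2 hh) h3
      exact Fin.ext (Nat.eq_of_mul_eq_mul_left hh h4)
    have h5 := Nat.card_le_card_of_injective _ h2
    rwa [Nat.card_eq_fintype_card, Fintype.card_fin] at h5
  have hsum : Nat.card {x : G // h ∣ orderOf x} + Nat.card {x : G // ¬ h ∣ orderOf x} =
      Nat.card G := by
    rw [← Nat.card_sum]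
    exact Nat.card_congr (Equiv.sumCompl (fun x : G => h ∣ orderOf x))
  have hbad : Nat.card {x : G // ¬ h ∣ orderOf x} + d ≤ Nat.card G := by omega
  have hbad' : (Nat.card {x : G // ¬ h ∣ orderOf x} : ℝ) + d ≤ Nat.card G := by exact_mod_cast hbad
  have hd' : (Nat.card G : ℝ) = h * d := by exact_mod_cast hd
  have hh' : (0 : ℝ) < h := by exact_mod_cast hh
  have h7 : (1 - 1 / (h : ℝ)) * Nat.card G = Nat.card G - d := by
    rw [hd']
    field_simp
  rw [h7]
  linarith

/-- the group of units of `ZMod (a b)` for coprime `a`, `b` -/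
noncomputable def unitsEquiv {a b : ℕ} (hab : a.Coprime b) :
    (ZMod (a * b))ˣ ≃* (ZMod a)ˣ × (ZMod b)ˣ :=
  (Units.mapEquiv (ZMod.chineseRemainder hab).toMulEquiv).trans MulEquiv.prodUnits

theorem exists_modulus {h : ℕ} (hh : 1 ≤ h) (r : ℕ) :
    ∃ M : ℕ, 0 < M ∧ Nat.Coprime 2 M ∧
      (Nat.card {u : (ZMod M)ˣ // ¬ h ∣ orderOf u} : ℝ) ≤ (1 - 1 / h) ^ r * M.totient := by
  have hq : (0 : ℝ) ≤ 1 - 1 / h := by
    have : (1 : ℝ) ≤ h := by exact_mod_cast hh
    rw [sub_nonneg, div_le_one (by linarith)]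
    exact this
  induction r with
  | zero =>
    refine ⟨1, one_pos, by norm_num, ?_⟩
    have h1 : Nat.card {u : (ZMod 1)ˣ // ¬ h ∣ orderOf u} ≤ Nat.card (ZMod 1)ˣ :=
      Nat.card_le_card_of_injective _ Subtype.val_injective
    have h2 : Nat.card (ZMod 1)ˣ = 1 := Nat.card_unique
    rw [h2] at h1
    simp only [pow_zero, Nat.totient_one, Nat.cast_one, mul_one]
    exact_mod_cast h1
  | succ r ih =>
    obtain ⟨M, hM0, hM2, hM⟩ := ih
    obtain ⟨l, hl, hlM, hlh⟩ := Nat.exists_prime_gt_modEq_one (M + 2) (show h ≠ 0 by omega)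
    have : Fact l.Prime := ⟨hl⟩
    have hcop : M.Coprime l := by
      rw [Nat.coprime_comm, hl.coprime_iff_not_dvd]
      intro hdvd
      have := Nat.le_of_dvd hM0 hdvd
      omega
    have : NeZero M := ⟨hM0.ne'⟩
    have : NeZero (M * l) := ⟨(Nat.mul_pos hM0 hl.pos).ne'⟩
    refine ⟨M * l, Nat.mul_pos hM0 hl.pos, ?_, ?_⟩
    · apply Nat.Coprime.mul_right hM2
      rw [Nat.coprime_primes Nat.prime_two hl]
      omega
    · have hl1 : h ∣ Nat.card (ZMod l)ˣ := by
        rw [Nat.card_eq_fintype_card, ZMod.card_units_eq_totient, Nat.totient_prime hl]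
        exact (Nat.modEq_iff_dvd' hl.one_lt.le).1 hlh.symm
      have h1 := card_bad_le (G := (ZMod l)ˣ) hh hl1
      rw [Nat.card_eq_fintype_card (α := (ZMod l)ˣ), ZMod.card_units_eq_totient] at h1
      have h2 : Nat.card {u : (ZMod (M * l))ˣ // ¬ h ∣ orderOf u} ≤
          Nat.card ({u : (ZMod M)ˣ // ¬ h ∣ orderOf u} × {u : (ZMod l)ˣ // ¬ h ∣ orderOf u}) := by
        have h3 : ∀ u : (ZMod (M * l))ˣ, orderOf (unitsEquiv hcop u).1 ∣ orderOf u ∧
            orderOf (unitsEquiv hcop u).2 ∣ orderOf u := by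
          intro u
          rw [← orderOf_injective (unitsEquiv hcop).toMonoidHom (unitsEquiv hcop).injective u]
          exact ⟨orderOf_fst_dvd_orderOf, orderOf_snd_dvd_orderOf⟩
        apply Nat.card_le_card_of_injective (fun u => (⟨(unitsEquiv hcop u.1).1, fun h4 =>
          u.2 (h4.trans (h3 u.1).1)⟩, ⟨(unitsEquiv hcop u.1).2, fun h4 =>
          u.2 (h4.trans (h3 u.1).2)⟩))
        intro u v huv
        rw [Prod.mk.injEq, Subtype.mk.injEq, Subtype.mk.injEq] at huv
        exact Subtype.ext ((unitsEquiv hcop).injective (Prod.ext huv.1 huv.2))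
      rw [Nat.card_prod] at h2
      have h4 : (Nat.card {u : (ZMod (M * l))ˣ // ¬ h ∣ orderOf u} : ℝ) ≤
          Nat.card {u : (ZMod M)ˣ // ¬ h ∣ orderOf u} *
            Nat.card {u : (ZMod l)ˣ // ¬ h ∣ orderOf u} := by exact_mod_cast h2
      rw [Nat.totient_mul hcop]
      calc _ ≤ _ := h4
        _ ≤ ((1 - 1 / h) ^ r * M.totient) * ((1 - 1 / h) * l.totient) :=
          mul_le_mul hM h1 (by positivity) (by positivity)
        _ = _ := by push_cast; ring

end Pool.Agent.helper95.LC
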