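import Pool.Agent.helper11.SG.Poly

/-! # Base two digits in a domain with complex embeddings

Anisotropic binary quadratic forms over finite reduced rings of characteristic two, and the
resulting families of points of the Heisenberg form with controlled absolute values.
-/

namespace Pool.Agent.helper95.LC

open Pool.Agent.helper11.SG

lemma field_aniso {K : Type*} [Field K] [Finite K] (h2 : (2 : K) = 0) :
    ∃ c : K, ∀ x y : K, x ^ 2 + x * y + c * y ^ 2 = 0 → x = 0 ∧ y = 0 := by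
  obtain ⟨c, hc⟩ := exists_not_range_sq (K := K)
  refine ⟨c, ?_⟩
  intro x y h
  by_cases hy : y = 0
  · subst hy
    simp at h
    exact ⟨h, rfl⟩
  · exfalso
    apply hc (x / y)
    have h3 : (x ^ 2 + x * y + c * y ^ 2) / y ^ 2 = 0 := by rw [h, zero_div]
    have h4 : (x / y) ^ 2 + x / y + c = 0 := by
      rw [← h3]; field_simp
    have h5 : c + c = 0 := by rw [← two_mul, h2, zero_mul]
    linear_combination h4 - h5

lemma ring_aniso {E : Type*} [CommRing E] [Finite E] [IsReduced E] (h2 : (2 : E) = 0) :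
    ∃ c : E, ∀ x y : E, x ^ 2 + x * y + c * y ^ 2 = 0 → x = 0 ∧ y = 0 := by
  have hI : ∀ I : MaximalSpectrum E, ∃ c : E ⧸ I.asIdeal, ∀ x y : E ⧸ I.asIdeal,
      x ^ 2 + x * y + c * y ^ 2 = 0 → x = 0 ∧ y = 0 := by
    intro I
    have := I.isMaximal
    let _ : Field (E ⧸ I.asIdeal) := Ideal.Quotient.field _
    have : Finite (E ⧸ I.asIdeal) :=
      Finite.of_surjective (Ideal.Quotient.mk I.asIdeal) Ideal.Quotient.mk_surjective
    apply field_aniso
    have := congrArg (Ideal.Quotient.mk I.asIdeal) h2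
    rw [map_ofNat, map_zero] at this
    exact this
  choose c hc using hI
  obtain ⟨d, hd⟩ := (IsArtinianRing.equivPi E).surjective c
  have hd' : ∀ I : MaximalSpectrum E, Ideal.Quotient.mk I.asIdeal d = c I := by
    intro I
    have := congrFun hd I
    rw [IsArtinianRing.equivPi_apply] at this
    exact this
  refine ⟨d, ?_⟩
  intro x y h
  have key : ∀ I : MaximalSpectrum E, Ideal.Quotient.mk I.asIdeal x = 0 ∧
      Ideal.Quotient.mk I.asIdeal y = 0 := by
    intro I
    apply hc I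
    have := congrArg (Ideal.Quotient.mk I.asIdeal) h
    simp only [map_add, map_mul, map_pow, map_zero, hd'] at this
    exact this
  have inj : ∀ z : E, (∀ I : MaximalSpectrum E, Ideal.Quotient.mk I.asIdeal z = 0) → z = 0 := by
    intro z hz
    apply (IsArtinianRing.equivPi E).injective
    rw [map_zero]
    funext I
    rw [IsArtinianRing.equivPi_apply]
    exact hz I
  exact ⟨inj x fun I => (key I).1, inj y fun I => (key I).2⟩

/-- the digit family -/
theorem digits.{u} {A : Type*} [CommRing A] [IsDomain A] {V : Type*} (σ : V → A →+* ℂ) {E : Type u}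
    [CommRing E] [Fintype E] [IsReduced E] (ev : A →+* E) (h2E : (2 : E) = 0) (h2 : (2 : A) ≠ 0)
    (s : E → A) (hs : ∀ e, ev (s e) = e) (C : ℝ) (hC0 : 0 ≤ C) (hC : ∀ v e, ‖σ v (s e)‖ ≤ C)
    (N : ℕ) :
    ∃ (ι : Type u) (_ : Fintype ι) (P : ι → A × A × A), Fintype.card ι = (Fintype.card E ^ 3) ^ N ∧
      Fam P ∧ ∀ i v, ‖σ v (P i).1‖ ≤ C * (2 ^ N - 1) ∧ ‖σ v (P i).2.1‖ ≤ C * (2 ^ N - 1) ∧
        ‖σ v (P i).2.2‖ ≤ (2 * C ^ 2 + 2 * C) * (4 ^ N - 2 ^ N) := by
  obtain ⟨c, hc⟩ := ring_aniso h2E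
  let P₀ : E × E → A × A × A := fun w => (s w.1, s w.2, s (w.1 ^ 2 + w.1 * w.2 + c * w.2 ^ 2))
  have hP₀ : ∀ i j, i ≠ j → ev (dis (P₀ i) (P₀ j)) ≠ 0 := by
    intro v w hvw h
    apply hvw
    have h3 := hc (v.1 - w.1) (v.2 - w.2) (by
      simp only [dis, P₀, map_sub, map_mul, hs] at h
      have e : (v.1 - w.1) ^ 2 + (v.1 - w.1) * (v.2 - w.2) + c * (v.2 - w.2) ^ 2 =
          (w.1 ^ 2 + w.1 * w.2 + c * w.2 ^ 2 - (v.1 ^ 2 + v.1 * v.2 + c * v.2 ^ 2) -
            (v.1 * w.2 - v.2 * w.1)) + 2 * (v.1 ^ 2 + v.1 * v.2 + c * v.2 ^ 2 - v.1 * w.1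
              - v.2 * w.1 - c * v.2 * w.2) := by ring
      rw [e, h, h2E]; ring)
    exact Prod.ext (sub_eq_zero.1 h3.1) (sub_eq_zero.1 h3.2)
  have hρ : ∀ i j, i ≠ j → ev (s i) ≠ ev (s j) := by
    intro i j hij
    rw [hs, hs]
    exact hij
  induction N with
  | zero =>
    refine ⟨PUnit, inferInstance, fun _ => (0, 0, 0), by simp, ?_, ?_⟩
    · intro i j hij
      exact absurd (Subsingleton.elim i j) hij
    intro i v
    simp
  | succ N ih =>
    obtain ⟨ι, _, P, hcard, hF, hB⟩ := ih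
    refine ⟨(E × E) × E × ι, inferInstance,
      fun v => comb (2 : A) (P₀ v.1) (s v.2.1) (P v.2.2), ?_, ?_, ?_⟩
    · rw [Fintype.card_prod, Fintype.card_prod, Fintype.card_prod, hcard]
      ring
    · exact fam_comb ev (by rw [map_ofNat, h2E]) h2 hP₀ hρ hF
    · rintro ⟨w, r, i⟩ v
      obtain ⟨b1, b2, b3⟩ := hB i v
      have h1N : (1 : ℝ) ≤ 2 ^ N := one_le_pow₀ (by norm_num)
      have e2 : (2 : ℝ) ^ (N + 1) = 2 * 2 ^ N := by ring
      have e4 : (4 : ℝ) ^ (N + 1) = 4 * 4 ^ N := by ring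
      have hx : ‖σ v (P₀ w).1‖ ≤ C := hC v _
      have hy : ‖σ v (P₀ w).2.1‖ ≤ C := hC v _
      have hz : ‖σ v (P₀ w).2.2‖ ≤ C := hC v _
      have hr : ‖σ v (s r)‖ ≤ C := hC v _
      have n2 : ‖(2 : ℂ)‖ = 2 := by simp
      have hb0 : 0 ≤ C * (2 ^ N - 1) := mul_nonneg hC0 (by linarith)
      refine ⟨?_, ?_, ?_⟩
      · simp only [comb, map_add, map_mul, map_ofNat]
        calc _ ≤ ‖σ v (P₀ w).1‖ + ‖(2 : ℂ) * σ v (P i).1‖ := norm_add_le _ _
          _ ≤ C + 2 * (C * (2 ^ N - 1)) := by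
            rw [norm_mul, n2]
            linarith
          _ = _ := by rw [e2]; ring
      · simp only [comb, map_add, map_mul, map_ofNat]
        calc _ ≤ ‖σ v (P₀ w).2.1‖ + ‖(2 : ℂ) * σ v (P i).2.1‖ := norm_add_le _ _
          _ ≤ C + 2 * (C * (2 ^ N - 1)) := by
            rw [norm_mul, n2]
            linarith
          _ = _ := by rw [e2]; ring
      · simp only [comb, map_add, map_mul, map_sub, map_pow, map_ofNat]
        have hcross : ‖σ v (P₀ w).1 * σ v (P i).2.1 - σ v (P₀ w).2.1 * σ v (P i).1‖ ≤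
            C * (C * (2 ^ N - 1)) + C * (C * (2 ^ N - 1)) := by
          refine (norm_sub_le _ _).trans (add_le_add ?_ ?_)
          · rw [norm_mul]
            exact mul_le_mul hx b2 (norm_nonneg _) hC0
          · rw [norm_mul]
            exact mul_le_mul hy b1 (norm_nonneg _) hC0
        have n22 : ‖(2 : ℂ) ^ 2‖ = 4 := by rw [norm_pow, n2]; norm_num
        calc _ ≤ ‖σ v (P₀ w).2.2‖ + ‖(2 : ℂ) * σ v (s r)‖ +
              ‖(2 : ℂ) * (σ v (P₀ w).1 * σ v (P i).2.1 - σ v (P₀ w).2.1 * σ v (P i).1)‖ +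
              ‖(2 : ℂ) ^ 2 * σ v (P i).2.2‖ :=
            (norm_add_le _ _).trans (add_le_add ((norm_add_le _ _).trans
              (add_le_add (norm_add_le _ _) le_rfl)) le_rfl)
          _ ≤ C + 2 * C + 2 * (C * (C * (2 ^ N - 1)) + C * (C * (2 ^ N - 1))) +
              4 * ((2 * C ^ 2 + 2 * C) * (4 ^ N - 2 ^ N)) := by
            rw [norm_mul, norm_mul, norm_mul, n2, n22]
            linarith
          _ ≤ _ := by
            rw [e2, e4]
            nlinarith [mul_nonneg hC0 (sub_nonneg.2 h1N), mul_nonneg hC0 hC0]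

/-- if a homomorphism to a field kills no small element, the digit family survives -/
theorem big_of_prod {A : Type*} [CommRing A] [IsDomain A] {V : Type*} [Fintype V]
    [Nonempty V] (σ : V → A →+* ℂ) {E : Type*} [CommRing E] [Fintype E] [IsReduced E] (ev : A →+* E)
    (h2E : (2 : E) = 0) (h2 : (2 : A) ≠ 0) (s : E → A) (hs : ∀ e, ev (s e) = e) (C : ℝ)
    (hC1 : 1 ≤ C) (hC : ∀ v e, ‖σ v (s e)‖ ≤ C) (hE : Fintype.card E = 2 ^ Fintype.card V)
    {F : Type*} [Field F] (φ : A →+* F) (q : ℕ)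
    (hq : ∀ a : A, a ≠ 0 → φ a = 0 → (q : ℝ) ≤ ∏ v, ‖σ v a‖) :
    ∃ m : ℕ, (((4 * (10 * C ^ 2)) ^ Fintype.card V : ℝ)⁻¹ * q) ^ (3 / 2 : ℝ) ≤ m ∧ Big F m := by
  classical
  set n := Fintype.card V with hn
  set G : ℝ := 10 * C ^ 2 with hG
  have hC0 : 0 ≤ C := by linarith
  have hG1 : 1 ≤ G := by nlinarith
  -- the key step
  have key : ∀ N : ℕ, (G * 4 ^ N) ^ n < q → Big F ((Fintype.card E ^ 3) ^ N) := by
    intro N hN
    obtain ⟨ι, _, P, hcard, hF, hB⟩ := digits σ ev h2E h2 s hs C hC0 hC N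
    refine Fam.big (P := fun i => (φ (P i).1, φ (P i).2.1, φ (P i).2.2)) ?_ hcard.ge
    intro i j hij h0
    have h1 : φ (dis (P i) (P j)) = 0 := by
      simp only [dis] at h0 ⊢
      simpa using h0
    have h3 := hq _ (hF i j hij) h1
    have h4 : ∏ v, ‖σ v (dis (P i) (P j))‖ ≤ ∏ _v : V, (G * 4 ^ N) := by
      apply Finset.prod_le_prod
      · intro v _
        exact norm_nonneg _
      · intro v _
        obtain ⟨a1, a2, a3⟩ := hB i v
        obtain ⟨b1, b2, b3⟩ := hB j v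
        simp only [dis, map_sub, map_mul]
        have hpow : (0 : ℝ) < 2 ^ N := by positivity
        have h1N : (1 : ℝ) ≤ 2 ^ N := one_le_pow₀ (by norm_num)
        have e4 : (4 : ℝ) ^ N = 2 ^ N * 2 ^ N := by
          rw [← mul_pow]; norm_num
        have hX : ∀ {x y : A}, ‖σ v x‖ ≤ C * (2 ^ N - 1) → ‖σ v y‖ ≤ C * (2 ^ N - 1) →
            ‖σ v x * σ v y‖ ≤ C ^ 2 * 4 ^ N := by
          intro x y hx hy
          rw [norm_mul]
          have hx' : ‖σ v x‖ ≤ C * 2 ^ N := hx.trans (by nlinarith)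
          have hy' : ‖σ v y‖ ≤ C * 2 ^ N := hy.trans (by nlinarith)
          calc _ ≤ (C * 2 ^ N) * (C * 2 ^ N) :=
                mul_le_mul hx' hy' (norm_nonneg _) (by positivity)
            _ = _ := by rw [e4]; ring
        have hZ : ∀ {x : A}, ‖σ v x‖ ≤ (2 * C ^ 2 + 2 * C) * (4 ^ N - 2 ^ N) →
            ‖σ v x‖ ≤ (2 * C ^ 2 + 2 * C) * 4 ^ N := by
          intro x hx
          refine hx.trans (mul_le_mul_of_nonneg_left (by linarith) (by positivity))
        have t1 := norm_sub_le (σ v (P j).2.2 - σ v (P i).2.2)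
          (σ v (P i).1 * σ v (P j).2.1 - σ v (P i).2.1 * σ v (P j).1)
        have t2 := norm_sub_le (σ v (P j).2.2) (σ v (P i).2.2)
        have t3 := norm_sub_le (σ v (P i).1 * σ v (P j).2.1) (σ v (P i).2.1 * σ v (P j).1)
        have t4 := hZ a3
        have t5 := hZ b3
        have t6 := hX a1 b2
        have t7 := hX a2 b1
        have hC2 : C ≤ C ^ 2 := by nlinarith
        have h4N : (0 : ℝ) ≤ 4 ^ N := by positivity
        calc _ ≤ (2 * C ^ 2 + 2 * C) * 4 ^ N + (2 * C ^ 2 + 2 * C) * 4 ^ N +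
              (C ^ 2 * 4 ^ N + C ^ 2 * 4 ^ N) := by linarith
          _ = (6 * C ^ 2 + 4 * C) * 4 ^ N := by ring
          _ ≤ G * 4 ^ N := by
            apply mul_le_mul_of_nonneg_right _ h4N
            rw [hG]; linarith
    rw [Finset.prod_const, Finset.card_univ, ← hn] at h4
    linarith
  have hM : (0 : ℝ) < (4 * G) ^ n := by positivity
  by_cases hsmall : (q : ℝ) ≤ G ^ n
  · refine ⟨1, ?_, {(0, 0, 0)}, by simp, ?_⟩
    · rw [Nat.cast_one]
      apply Real.rpow_le_one (by positivity) _ (by norm_num)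
      rw [inv_mul_le_iff₀ hM, mul_one]
      refine hsmall.trans (pow_le_pow_left₀ (by linarith) (by linarith) _)
    · intro s hs t ht hst
      rw [Finset.mem_singleton] at hs ht
      exact absurd (hs.trans ht.symm) hst
  · push Not at hsmall
    have hn0 : n ≠ 0 := Fintype.card_ne_zero
    -- choose the last admissible number of digits
    have hex : ∃ N : ℕ, (q : ℝ) ≤ (G * 4 ^ N) ^ n := by
      obtain ⟨N, hN⟩ := pow_unbounded_of_one_lt (q : ℝ) (show (1 : ℝ) < 4 by norm_num)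
      refine ⟨N, hN.le.trans ?_⟩
      have h5 : (1 : ℝ) ≤ G * 4 ^ N := by
        have : (1 : ℝ) ≤ 4 ^ N := one_le_pow₀ (by norm_num)
        nlinarith
      calc (4 : ℝ) ^ N ≤ G * 4 ^ N := by
            have : (0 : ℝ) ≤ 4 ^ N := by positivity
            nlinarith
        _ ≤ (G * 4 ^ N) ^ n := le_self_pow₀ h5 hn0
    obtain ⟨N, hN1, hN2⟩ : ∃ N : ℕ, (G * 4 ^ N) ^ n < q ∧ (q : ℝ) ≤ (G * 4 ^ (N + 1)) ^ n := by
      have hfind := Nat.find_spec hex
      have hpos : Nat.find hex ≠ 0 := by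
        intro h
        rw [h, pow_zero, mul_one] at hfind
        linarith
      obtain ⟨k, hk⟩ := Nat.exists_eq_succ_of_ne_zero hpos
      refine ⟨k, ?_, ?_⟩
      · have := Nat.find_min hex (m := k) (by omega)
        push Not at this
        exact this
      · rw [hk] at hfind
        exact hfind
    refine ⟨(Fintype.card E ^ 3) ^ N, ?_, key N hN1⟩
    rw [hE]
    have h6 : (((2 ^ n) ^ 3) ^ N : ℝ) = ((4 ^ N : ℝ) ^ n) ^ (3 / 2 : ℝ) := by
      rw [← Real.rpow_natCast, ← Real.rpow_natCast, ← Real.rpow_natCast, ← Real.rpow_natCast,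
        ← Real.rpow_natCast]
      rw [show (4 : ℝ) = 2 ^ (2 : ℝ) by norm_num]
      rw [← Real.rpow_mul (by norm_num), ← Real.rpow_mul (by norm_num),
        ← Real.rpow_mul (by norm_num), ← Real.rpow_mul (by norm_num),
        ← Real.rpow_mul (by norm_num)]
      congr 1
      push_cast
      ring
    push_cast
    rw [h6]
    apply Real.rpow_le_rpow (by positivity) _ (by norm_num)
    rw [inv_mul_le_iff₀ hM]
    calc (q : ℝ) ≤ (G * 4 ^ (N + 1)) ^ n := hN2
      _ = (4 * G) ^ n * (4 ^ N) ^ n := by rw [← mul_pow]; ring_nf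

end Pool.Agent.helper95.LC
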