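import Pool.Agent.helper95.LC.Cyc

/-! # Prime conductor: an explicit constant -/

namespace Pool.Agent.helper95.LC

open Pool.Agent.helper11.SG NumberField IsCyclotomicExtension.Rat

section basis

variable {l : ℕ} [hl : Fact l.Prime] {L : Type*} [Field L] [NumberField L]
  [hL : IsCyclotomicExtension {l} ℚ L]

lemma coprime_succ (i : Fin (l - 1)) : Nat.Coprime (i.1 + 1) l := by
  have h1 := hl.out.one_lt
  have h2 := i.2
  exact (Nat.coprime_of_lt_prime (by omega) (by omega) hl.out).symm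

/-- exponents between `1` and `l - 1` and nonzero residues -/
noncomputable def expEquiv : Fin (l - 1) ≃ (ZMod l)ˣ :=
  Equiv.ofBijective (fun i => ZMod.unitOfCoprime (i.1 + 1) (coprime_succ i)) (by
    rw [Fintype.bijective_iff_injective_and_card]
    refine ⟨?_, ?_⟩
    · intro i j hij
      have h1 := congrArg (fun u : (ZMod l)ˣ => (u : ZMod l)) hij
      simp only [ZMod.coe_unitOfCoprime] at h1
      have h2 := i.2
      have h3 := j.2
      rw [ZMod.natCast_eq_natCast_iff'] at h1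
      rw [Nat.mod_eq_of_lt (by omega), Nat.mod_eq_of_lt (by omega)] at h1
      exact Fin.ext (by omega)
    · rw [Fintype.card_fin, ZMod.card_units_eq_totient, Nat.totient_prime hl.out])

lemma expEquiv_val (i : Fin (l - 1)) : ((expEquiv i : (ZMod l)ˣ) : ZMod l).val = i.1 + 1 := by
  have h2 := i.2
  simp only [expEquiv, Equiv.ofBijective_apply, ZMod.coe_unitOfCoprime]
  rw [ZMod.val_natCast, Nat.mod_eq_of_lt (by omega)]

variable (l L) in
/-- the chosen root of unity -/
noncomputable def zt : 𝓞 L := (IsCyclotomicExtension.zeta_spec l ℚ L).toInteger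

lemma zt_pow : (zt l L) ^ l = 1 :=
  (IsCyclotomicExtension.zeta_spec l ℚ L).toInteger_isPrimitiveRoot.pow_eq_one

lemma exists_basis : ∃ b : Module.Basis (ZMod l)ˣ ℤ (𝓞 L), ∀ u, b u = zt l L ^ ((u : ZMod l).val) := by
  have hζ := IsCyclotomicExtension.zeta_spec l ℚ L
  have h0 : zt l L ≠ 0 := by
    intro h
    have h1 := zt_pow (l := l) (L := L)
    rw [h, zero_pow hl.out.ne_zero] at h1
    exact zero_ne_one h1
  let pb := hζ.integralPowerBasis
  have hdim : pb.dim = l - 1 := by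
    rw [hζ.integralPowerBasis_dim, Nat.totient_prime hl.out]
  have hgen : pb.gen = zt l L := hζ.integralPowerBasis_gen
  let e1 : 𝓞 L ≃ₗ[ℤ] 𝓞 L := LinearEquiv.ofBijective (LinearMap.mulLeft ℤ (zt l L))
    ⟨mul_right_injective₀ h0, fun y => ⟨zt l L ^ (l - 1) * y, by
      have h1 := hl.out.one_lt
      simp only [LinearMap.mulLeft_apply]
      rw [← mul_assoc, ← pow_succ', Nat.sub_add_cancel h1.le, zt_pow, one_mul]⟩⟩
  refine ⟨(pb.basis.map e1).reindex ((finCongr hdim).trans expEquiv), ?_⟩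
  intro u
  rw [Module.Basis.reindex_apply, Module.Basis.map_apply, pb.basis_eq_pow, hgen]
  have h1 := expEquiv_val (expEquiv.symm u)
  rw [Equiv.apply_symm_apply] at h1
  rw [h1]
  have he1 : ∀ y, e1 y = zt l L * y := fun y => rfl
  rw [he1, ← pow_succ']
  rfl

lemma smul_zt_pow (σ : Gal(L/ℚ)) (u : (ZMod l)ˣ) :
    σ • (zt l L ^ ((u : ZMod l).val)) = zt l L ^ (((galEquivZMod l L σ * u : (ZMod l)ˣ) : ZMod l).val) := by
  have h1 : (zt l L ^ ((u : ZMod l).val)) ^ l = 1 := by
    rw [← pow_mul, mul_comm, pow_mul, zt_pow, one_pow]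
  rw [galEquivZMod_smul_of_pow_eq l L σ h1, ← pow_mul]
  apply pow_eq_pow_of_modEq _ zt_pow
  rw [← ZMod.natCast_eq_natCast_iff]
  push_cast
  rw [ZMod.natCast_zmod_val, ZMod.natCast_zmod_val, ZMod.natCast_zmod_val, mul_comm]

lemma exists_ext {L : Type*} [Field L] [NumberField L] (M : IntermediateField ℚ L)
    (v : M →ₐ[ℚ] ℂ) : ∃ w : L →+* ℂ, ∀ y : M, v y = w (y : L) := by
  let _ : Algebra M ℂ := v.toRingHom.toAlgebra
  let w : L →ₐ[M] ℂ := IsAlgClosed.lift
  refine ⟨w.toRingHom, ?_⟩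
  intro y
  exact (w.commutes y).symm

/-- small representatives modulo two in a subfield of a cyclotomic field of prime conductor -/
theorem exists_rep (H : Subgroup Gal(L/ℚ)) (M : IntermediateField ℚ L)
    (hM : ∀ y : L, y ∈ M ↔ ∀ σ ∈ H, σ y = y) (a : 𝓞 M) :
    ∃ s : 𝓞 M, (2 : 𝓞 M) ∣ a - s ∧ ∀ v : M →ₐ[ℚ] ℂ, ‖emb _ v s‖ ≤ l := by
  classical
  obtain ⟨b, hb⟩ := exists_basis (l := l) (L := L)
  set x : 𝓞 L := algebraMap (𝓞 M) (𝓞 L) a with hx
  let g : Gal(L/ℚ) ≃* (ZMod l)ˣ := galEquivZMod l L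
  -- the coefficients are invariant
  have hfix : ∀ σ ∈ H, σ • x = x := by
    intro σ hσ
    apply RingOfIntegers.ext
    have h1 : ((a : M) : L) ∈ M := (a : M).2
    exact (hM _).1 h1 _ hσ
  have hsum : ∀ (c : (ZMod l)ˣ → ℤ) (σ : Gal(L/ℚ)), σ • (∑ u, c u • b u) =
      ∑ u, c ((g σ)⁻¹ * u) • b u := by
    intro c σ
    rw [Finset.smul_sum]
    have h1 : ∀ u, σ • (c u • b u) = c u • b (g σ * u) := by
      intro u
      rw [smul_comm, hb, hb, smul_zt_pow]
    simp only [h1]
    rw [← Equiv.sum_comp (Equiv.mulLeft (g σ)) (fun u => c ((g σ)⁻¹ * u) • b u)]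
    apply Finset.sum_congr rfl
    intro u _
    simp
  have hcoef : ∀ σ ∈ H, ∀ u, b.repr x ((g σ)⁻¹ * u) = b.repr x u := by
    intro σ hσ u
    have h1 : σ • x = ∑ u, b.repr x ((g σ)⁻¹ * u) • b u := by
      conv_lhs => rw [← b.sum_repr x]
      exact hsum _ σ
    rw [hfix σ hσ] at h1
    have h2 : b.repr x u = b.repr (∑ u, b.repr x ((g σ)⁻¹ * u) • b u) u :=
      congrArg (fun y => b.repr y u) h1
    rw [b.repr_sum_self] at h2
    exact h2.symm
  -- the representative
  let S : (ℤ → ℤ) → 𝓞 L := fun c => ∑ u, c (b.repr x u) • b u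
  have hmem : ∀ c : ℤ → ℤ, (S c : L) ∈ M := by
    intro c
    rw [hM]
    intro σ hσ
    have h1 : σ • (S c) = S c := by
      simp only [S]
      rw [hsum]
      apply Finset.sum_congr rfl
      intro u _
      rw [hcoef σ hσ u]
    exact congrArg (fun z : 𝓞 L => (z : L)) h1
  have hint : ∀ c, IsIntegral ℤ (⟨(S c : L), hmem c⟩ : M) := by
    intro c
    rw [← isIntegral_algebraMap_iff (algebraMap M L).injective]
    exact (S c).2
  have hex : ∀ c, ∃ s : 𝓞 M, algebraMap (𝓞 M) (𝓞 L) s = S c := by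
    intro c
    refine ⟨⟨⟨(S c : L), hmem c⟩, hint c⟩, ?_⟩
    apply RingOfIntegers.ext
    rfl
  have hinj : Function.Injective (algebraMap (𝓞 M) (𝓞 L)) :=
    FaithfulSMul.algebraMap_injective (𝓞 M) (𝓞 L)
  obtain ⟨s1, hs1⟩ := hex (fun n => n % 2)
  obtain ⟨s2, hs2⟩ := hex (fun n => n / 2)
  refine ⟨s1, ⟨s2, ?_⟩, ?_⟩
  · have h1 : x - S (fun n => n % 2) = 2 * S (fun n => n / 2) := by
      have h0 : x - S (fun n => n % 2) = (∑ u, b.repr x u • b u) - S (fun n => n % 2) := by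
        rw [b.sum_repr x]
      rw [h0]
      simp only [S]
      rw [← Finset.sum_sub_distrib, Finset.mul_sum]
      apply Finset.sum_congr rfl
      intro u _
      rw [← sub_smul, two_mul, ← add_smul]
      congr 1
      omega
    apply hinj
    rw [map_sub, map_mul, map_ofNat, hs1, hs2]
    exact h1
  · intro v
    obtain ⟨w, hw⟩ := exists_ext M v
    have hz : ‖w (zt l L : L)‖ = 1 := by
      have h1 : (w (zt l L : L)) ^ l = 1 := by
        rw [← map_pow]
        have h2 := congrArg (fun z : 𝓞 L => (z : L)) (zt_pow (l := l) (L := L))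
        simp only [map_pow, map_one] at h2
        rw [h2, map_one]
      exact Complex.norm_eq_one_of_pow_eq_one h1 hl.out.ne_zero
    have h00 : ((s1 : M) : L) = (S (fun n => n % 2) : L) :=
      congrArg (fun z : 𝓞 L => (z : L)) hs1
    have h0 : emb M v s1 = w (S (fun n => n % 2) : L) := by
      rw [← h00, ← hw]
      rfl
    have h1 : w (S (fun n => n % 2) : L) = ∑ u, ((b.repr x u % 2 : ℤ) : ℂ) *
        w (zt l L : L) ^ ((u : ZMod l).val) := by
      simp only [S, map_sum, zsmul_eq_mul, map_mul, map_intCast, hb, map_pow]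
    rw [h0, h1]
    refine (norm_sum_le _ _).trans ?_
    have h2 : ∀ u : (ZMod l)ˣ, ‖((b.repr x u % 2 : ℤ) : ℂ) * w (zt l L : L) ^ ((u : ZMod l).val)‖ ≤ 1 := by
      intro u
      rw [norm_mul, norm_pow, hz, one_pow, mul_one]
      rcases Int.emod_two_eq_zero_or_one (b.repr x u) with h3 | h3
      · rw [h3]; simp
      · rw [h3]; simp
    refine (Finset.sum_le_sum fun u _ => h2 u).trans ?_
    rw [Finset.sum_const, Finset.card_univ, ZMod.card_units_eq_totient, nsmul_eq_mul, mul_one]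
    exact_mod_cast Nat.totient_le l

end basis

/-- the degree of a fixed field of a cyclotomic field of prime conductor -/
lemma card_emb {l : ℕ} [hl : Fact l.Prime] {L : Type*} [Field L] [NumberField L]
    [hL : IsCyclotomicExtension {l} ℚ L] (H : Subgroup Gal(L/ℚ)) {h f : ℕ}
    (hf : Nat.card H * h = f) (hf0 : 0 < f) :
    Fintype.card ((IntermediateField.fixedField H) →ₐ[ℚ] ℂ) = (l - 1) * h / f := by
  have : IsGalois ℚ L := IsCyclotomicExtension.isGalois {l} ℚ L
  rw [AlgHom.card]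
  have h1 : Module.finrank ℚ (IntermediateField.fixedField H) *
      Module.finrank (IntermediateField.fixedField H) L = Module.finrank ℚ L :=
    Module.finrank_mul_finrank ℚ _ L
  rw [IntermediateField.finrank_fixedField_eq_card, IsCyclotomicExtension.Rat.finrank l L,
    Nat.totient_prime hl.out] at h1
  symm
  apply Nat.div_eq_of_eq_mul_left hf0
  rw [← h1, ← hf]
  ring

/-- the explicit bound for prime conductors -/
theorem prime_bound {l p h : ℕ} (hl : l.Prime) (hl2 : l ≠ 2) (hp : p.Prime) (hpl : p ≠ l)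
    (hh : 1 ≤ h) (hdvd : h ∣ orderOf (p : ZMod l)) (F : Type*) [Field F] [Finite F]
    (hF : Nat.card F = p ^ h) :
    ∃ k : ℕ, (Nat.card F : ℝ) ^ (3 / 2 : ℝ) ≤
      (7 * l : ℝ) ^ (3 * ((l - 1) * h / orderOf (p : ZMod l))) * k ∧ Big F k := by
  classical
  have _ : Fact l.Prime := ⟨hl⟩
  have _ : Fact p.Prime := ⟨hp⟩
  have hcop2 : Nat.Coprime 2 l := (Nat.coprime_primes Nat.prime_two hl).2 hl2.symm
  have hpm : ¬ p ∣ l := fun hd => hpl ((Nat.prime_dvd_prime_iff_eq hp hl).1 hd)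
  have hm0 : NeZero ((l : ℕ) : ℚ) := ⟨by exact_mod_cast hl.ne_zero⟩
  let L := CyclotomicField l ℚ
  have hcyc : IsCyclotomicExtension {l} ℚ L := CyclotomicField.isCyclotomicExtension l ℚ
  obtain ⟨H, hH, hM⟩ := exists_subfield (L := L) p hpm hh hdvd
  obtain ⟨φ, hφ⟩ := hM F hF
  have hf0 : 0 < orderOf (p : ZMod l) := by
    rw [← hH]
    exact Nat.mul_pos Nat.card_pos hh
  have hn := card_emb (l := l) (L := L) H hH hf0
  have hred := isReduced_two (m := l) hcop2 (IntermediateField.fixedField H)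
  generalize hMM : IntermediateField.fixedField H = M at *
  have hmem : ∀ y : L, y ∈ M ↔ ∀ σ ∈ H, σ y = y := by
    intro y
    rw [← hMM]
    exact IntermediateField.mem_fixedField_iff H y
  set E := 𝓞 M ⧸ Ideal.span {(2 : 𝓞 M)} with hE
  have hcard := card_two (K := M)
  have hfin : Finite E := Nat.finite_of_card_ne_zero (by rw [hcard]; positivity)
  let _ : Fintype E := Fintype.ofFinite E
  let ev : 𝓞 M →+* E := Ideal.Quotient.mk _
  have hev : Function.Surjective ev := Ideal.Quotient.mk_surjective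
  have hrep : ∀ e : E, ∃ s : 𝓞 M, ev s = e ∧ ∀ v : M →ₐ[ℚ] ℂ, ‖emb M v s‖ ≤ l := by
    intro e
    obtain ⟨a, ha⟩ := hev e
    obtain ⟨s, hs, hb⟩ := exists_rep (l := l) H M hmem a
    refine ⟨s, ?_, hb⟩
    rw [← ha]
    symm
    rw [← sub_eq_zero, ← map_sub]
    exact Ideal.Quotient.eq_zero_iff_mem.2 (Ideal.mem_span_singleton.2 hs)
  choose s hs hsb using hrep
  have h2E : (2 : E) = 0 := by
    have h1 : ev 2 = 0 := Ideal.Quotient.eq_zero_iff_mem.2 (Ideal.mem_span_singleton_self _)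
    rw [map_ofNat] at h1
    exact h1
  have hCE : Fintype.card E = 2 ^ Fintype.card (M →ₐ[ℚ] ℂ) := by
    rw [← hcard, Nat.card_eq_fintype_card]
  have hne : Nonempty (M →ₐ[ℚ] ℂ) := by
    have h1 : 0 < Fintype.card (M →ₐ[ℚ] ℂ) := by
      rw [AlgHom.card]
      exact Module.finrank_pos
    exact Fintype.card_pos_iff.1 h1
  have hl1 : (1 : ℝ) ≤ l := by exact_mod_cast hl.one_lt.le
  obtain ⟨k, hk, hB⟩ := big_of_prod (emb M) ev h2E (by norm_num) s hs l hl1
    (fun v e => hsb e v) hCE φ (Nat.card F) (fun a ha h0 => card_le_prod φ hφ a ha h0)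
  refine ⟨k, ?_, hB⟩
  rw [← hn]
  set n := Fintype.card (M →ₐ[ℚ] ℂ) with hndef
  have hM0 : (0 : ℝ) < (4 * (10 * (l : ℝ) ^ 2)) ^ n := by positivity
  have h1 : (Nat.card F : ℝ) = (4 * (10 * (l : ℝ) ^ 2)) ^ n *
      (((4 * (10 * (l : ℝ) ^ 2)) ^ n)⁻¹ * Nat.card F) := by
    field_simp
  rw [h1, Real.mul_rpow hM0.le (by positivity)]
  apply mul_le_mul _ hk (by positivity) (by positivity)
  have h2 : ((7 * l : ℝ) ^ (3 * n)) = (((7 * l : ℝ) ^ 2) ^ n) ^ (3 / 2 : ℝ) := by
    rw [← pow_mul, ← Real.rpow_natCast, ← Real.rpow_natCast, ← Real.rpow_mul (by positivity)]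
    congr 1
    push_cast
    ring
  rw [h2]
  apply Real.rpow_le_rpow hM0.le _ (by norm_num)
  apply pow_le_pow_left₀ (by positivity)
  nlinarith [sq_nonneg (l : ℝ)]

end Pool.Agent.helper95.LC
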