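import Pool.Agent.helper95.LC.Dens
import Pool.Agent.helper95.LC.Prime

/-! # The graph of a linear complex of `PG(3, q)` -/

namespace Pool.Agent.helper95.LC

open scoped LinearAlgebra.Projectivization
open Pool.Agent.helper11.SG

/-- `L` is a line of the linear complex of `f`: it is spanned by two linearly independent vectors
`u`, `v` with `f u v = 0`. -/
def IsComplexLine {K : Type*} [Field K] (f : LinearMap.BilinForm K (Fin 4 → K))
    (L : Submodule K (Fin 4 → K)) : Prop :=
  ∃ u v : Fin 4 → K, LinearIndependent K ![u, v] ∧ L = Submodule.span K {u, v} ∧ f u v = 0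

/-- The graph on the points of `PG(3, K)`: two distinct points are adjacent when the line joining
them belongs to the linear complex of `f`. -/
def complexGraph {K : Type*} [Field K] (f : LinearMap.BilinForm K (Fin 4 → K)) :
    SimpleGraph (ℙ K (Fin 4 → K)) where
  Adj x y := x ≠ y ∧ IsComplexLine f (x.submodule ⊔ y.submodule)
  symm := ⟨fun x y h => ⟨h.1.symm, by rw [sup_comm]; exact h.2⟩⟩
  loopless := ⟨fun x h => h.1 rfl⟩

section field

variable {K : Type*} [Field K] (f : LinearMap.BilinForm K (Fin 4 → K))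

lemma exists_frame (ha : f.IsAlt) (hn : f.Nondegenerate) :
    ∃ e1 e2 e3 e4 : Fin 4 → K, f e1 e4 = 1 ∧ f e2 e3 = -1 ∧ f e1 e2 = 0 ∧ f e1 e3 = 0 ∧
      f e4 e2 = 0 ∧ f e4 e3 = 0 := by
  have key : ∀ x : Fin 4 → K, x ≠ 0 → ∃ y, f x y ≠ 0 := by
    intro x hx
    by_contra h
    push Not at h
    exact hx (hn.1 x h)
  obtain ⟨e1, he1'⟩ : ∃ e1 : Fin 4 → K, e1 ≠ 0 := by
    refine ⟨Pi.single 0 1, ?_⟩
    intro h
    have := congrFun h 0
    simp at this
  obtain ⟨y, hy⟩ := key e1 he1'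
  obtain ⟨e4, h14⟩ : ∃ e4, f e1 e4 = 1 :=
    ⟨(f e1 y)⁻¹ • y, by rw [map_smul, smul_eq_mul, inv_mul_cancel₀ hy]⟩
  have hlt : Module.finrank K (Fin 2 → K) < Module.finrank K (Fin 4 → K) := by
    simp
  obtain ⟨e2, he2, he2'⟩ := (Submodule.ne_bot_iff _).1
    (LinearMap.ker_ne_bot_of_finrank_lt (f := LinearMap.pi ![f e1, f e4]) hlt)
  rw [LinearMap.mem_ker] at he2
  have h12 : f e1 e2 = 0 := by simpa using congrFun he2 0
  have h42 : f e4 e2 = 0 := by simpa using congrFun he2 1
  obtain ⟨z, hz⟩ := key e2 he2'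
  set z' : Fin 4 → K := z + (f e4 z) • e1 - (f e1 z) • e4 with hz'
  have h41 : f e4 e1 = -1 := by
    rw [← ha.neg_eq, h14]
  have h1z : f e1 z' = 0 := by
    rw [hz', map_sub, map_add, map_smul, map_smul, h14, ha.self_eq_zero]; simp
  have h4z : f e4 z' = 0 := by
    rw [hz', map_sub, map_add, map_smul, map_smul, h41, ha.self_eq_zero]; simp
  have h2z : f e2 z' = f e2 z := by
    rw [hz', map_sub, map_add, map_smul, map_smul]
    have h21 : f e2 e1 = 0 := by rw [← ha.neg_eq, h12, neg_zero]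
    have h24 : f e2 e4 = 0 := by rw [← ha.neg_eq, h42, neg_zero]
    rw [h21, h24]; simp
  refine ⟨e1, e2, (-(f e2 z)⁻¹) • z', e4, h14, ?_, h12, ?_, h42, ?_⟩
  · rw [map_smul, h2z, smul_eq_mul]
    field_simp
  · rw [map_smul, h1z, smul_zero]
  · rw [map_smul, h4z, smul_zero]

lemma adj_zero (ha : f.IsAlt) {x y : Fin 4 → K} {hx : x ≠ 0} {hy : y ≠ 0}
    (h : (complexGraph f).Adj (Projectivization.mk K x hx) (Projectivization.mk K y hy)) :
    f x y = 0 := by
  obtain ⟨-, u, v, -, hL, huv⟩ := h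
  rw [Projectivization.submodule_mk, Projectivization.submodule_mk] at hL
  have hx' : x ∈ Submodule.span K {u, v} := by
    rw [← hL]
    exact Submodule.mem_sup_left (Submodule.mem_span_singleton_self x)
  have hy' : y ∈ Submodule.span K {u, v} := by
    rw [← hL]
    exact Submodule.mem_sup_right (Submodule.mem_span_singleton_self y)
  obtain ⟨a, b, rfl⟩ := Submodule.mem_span_pair.1 hx'
  obtain ⟨c, d, rfl⟩ := Submodule.mem_span_pair.1 hy'
  have hvu : f v u = 0 := by rw [← ha.neg_eq, huv, neg_zero]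
  simp [map_add, map_smul, ha.self_eq_zero, huv, hvu]

end field

/-- the symplectic value of two affine points -/
lemma form_value {K : Type*} [Field K] (f : LinearMap.BilinForm K (Fin 4 → K)) (ha : f.IsAlt)
    {e1 e2 e3 e4 : Fin 4 → K} (h14 : f e1 e4 = 1) (h23 : f e2 e3 = -1) (h12 : f e1 e2 = 0)
    (h13 : f e1 e3 = 0) (h42 : f e4 e2 = 0) (h43 : f e4 e3 = 0) (a b c a' b' c' : K) :
    f (e1 + a • e2 + b • e3 + c • e4) (e1 + a' • e2 + b' • e3 + c' • e4) =
      c' - c - (a * b' - b * a') := by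
  have h41 : f e4 e1 = -1 := by rw [← ha.neg_eq, h14]
  have h32 : f e3 e2 = 1 := by rw [← ha.neg_eq, h23, neg_neg]
  have h21 : f e2 e1 = 0 := by rw [← ha.neg_eq, h12, neg_zero]
  have h31 : f e3 e1 = 0 := by rw [← ha.neg_eq, h13, neg_zero]
  have h24 : f e2 e4 = 0 := by rw [← ha.neg_eq, h42, neg_zero]
  have h34 : f e3 e4 = 0 := by rw [← ha.neg_eq, h43, neg_zero]
  simp only [map_add, map_smul, LinearMap.add_apply, LinearMap.smul_apply, smul_eq_mul, h14, h23,
    h12, h13, h42, h43, h41, h32, h21, h31, h24, h34, ha.self_eq_zero]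
  ring

lemma le_indepNum {K : Type*} [Field K] [Finite K] (f : LinearMap.BilinForm K (Fin 4 → K))
    (ha : f.IsAlt) (hn : f.Nondegenerate) {n : ℕ} (h : Big K n) :
    n ≤ (complexGraph f).indepNum := by
  classical
  obtain ⟨S, hS, hS2⟩ := h
  obtain ⟨e1, e2, e3, e4, h14, h23, h12, h13, h42, h43⟩ := exists_frame f ha hn
  have hval := form_value f ha h14 h23 h12 h13 h42 h43
  let vec : K × K × K → Fin 4 → K := fun x => e1 + x.1 • e2 + x.2.1 • e3 + x.2.2 • e4
  have hvec : ∀ x y, f (vec x) (vec y) = dis x y := by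
    intro x y
    simp only [vec]
    rw [hval]
    simp [dis]
  have hne : ∀ x, vec x ≠ 0 := by
    intro x h
    have h1 : f (vec x) e4 = 0 := by rw [h]; simp
    have h24 : f e2 e4 = 0 := by rw [← ha.neg_eq, h42, neg_zero]
    have h34 : f e3 e4 = 0 := by rw [← ha.neg_eq, h43, neg_zero]
    simp [vec, h14, h24, h34, ha.self_eq_zero] at h1
  have hdisc : ∀ x ∈ S, ∀ y ∈ S, x ≠ y → f (vec x) (vec y) ≠ 0 := by
    intro x hx y hy hxy h
    rw [hvec] at h
    exact hS2 x hx y hy hxy h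
  let pt : K × K × K → ℙ K (Fin 4 → K) := fun x => Projectivization.mk _ (vec x) (hne x)
  have hinj : Set.InjOn pt (S : Set (K × K × K)) := by
    intro x hx y hy h
    by_contra hxy
    simp only [pt] at h
    rw [Projectivization.mk_eq_mk_iff'] at h
    obtain ⟨a, ha'⟩ := h
    apply hdisc x hx y hy hxy
    rw [← ha', map_smul]
    simp [ha.self_eq_zero]
  have hcard : (S.image pt).card = S.card := Finset.card_image_of_injOn hinj
  have : Finite (ℙ K (Fin 4 → K)) := Quotient.finite _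
  have := Fintype.ofFinite (ℙ K (Fin 4 → K))
  refine hS.trans ?_
  rw [← hcard]
  apply SimpleGraph.IsIndepSet.card_le_indepNum
  intro X hX Y hY hXY hadj
  simp only [Finset.coe_image, Set.mem_image, Finset.mem_coe] at hX hY
  obtain ⟨x, hx, rfl⟩ := hX
  obtain ⟨y, hy, rfl⟩ := hY
  have hxy : x ≠ y := fun h => hXY (by rw [h])
  exact hdisc x hx y hy hxy (adj_zero f ha hadj)

lemma big_one (K : Type*) [Field K] : Big K 1 := by
  refine ⟨{(0, 0, 0)}, by simp, ?_⟩
  intro x hx y hy hxy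
  rw [Finset.mem_singleton] at hx hy
  exact absurd (hx.trans hy.symm) hxy

end Pool.Agent.helper95.LC
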