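import Pool.Agent.helper95.LC.Digits

/-! # Residue fields of a number field in which two is unramified -/

namespace Pool.Agent.helper95.LC

open Pool.Agent.helper11.SG NumberField

/-- the embeddings of the ring of integers -/
noncomputable def emb (K : Type*) [Field K] [NumberField K] (v : K →ₐ[ℚ] ℂ) : 𝓞 K →+* ℂ :=
  (v : K →+* ℂ).comp (algebraMap (𝓞 K) K)

lemma prod_emb {K : Type*} [Field K] [NumberField K] (a : 𝓞 K) :
    ∏ v : K →ₐ[ℚ] ℂ, ‖emb K v a‖ = |((Algebra.norm ℤ a : ℤ) : ℝ)| := by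
  have h1 := Algebra.norm_eq_prod_embeddings ℚ ℂ (a : K)
  have h2 : ((Algebra.norm ℤ a : ℤ) : ℚ) = Algebra.norm ℚ (a : K) := Algebra.coe_norm_int a
  rw [← h2] at h1
  have h3 := congrArg (fun z : ℂ => ‖z‖) h1
  simp only [norm_prod] at h3
  have h4 : ‖(algebraMap ℚ ℂ) ((Algebra.norm ℤ a : ℤ) : ℚ)‖ = |((Algebra.norm ℤ a : ℤ) : ℝ)| := by
    simp
  rw [← h4, h3]
  rfl

lemma card_le_prod {K : Type*} [Field K] [NumberField K] {F : Type*} [Field F] [Finite F]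
    (φ : 𝓞 K →+* F) (hφ : Function.Surjective φ) (a : 𝓞 K) (ha : a ≠ 0) (h0 : φ a = 0) :
    (Nat.card F : ℝ) ≤ ∏ v : K →ₐ[ℚ] ℂ, ‖emb K v a‖ := by
  rw [prod_emb]
  have h1 : a ∈ RingHom.ker φ := h0
  have h2 := Ideal.absNorm_dvd_norm_of_mem h1
  have h3 : Ideal.absNorm (RingHom.ker φ) = Nat.card F := by
    rw [Ideal.absNorm_apply, Submodule.cardQuot_apply]
    exact Nat.card_congr (RingHom.quotientKerEquivOfSurjective hφ).toEquiv
  rw [h3] at h2
  have h4 : Algebra.norm ℤ a ≠ 0 := Algebra.norm_ne_zero_iff.2 ha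
  have h5 := Int.le_of_dvd (abs_pos.2 h4) ((dvd_abs _ _).2 h2)
  have h6 : ((Nat.card F : ℤ) : ℝ) ≤ ((|Algebra.norm ℤ a| : ℤ) : ℝ) := by exact_mod_cast h5
  simpa using h6

lemma card_two {K : Type*} [Field K] [NumberField K] :
    Nat.card (𝓞 K ⧸ Ideal.span {(2 : 𝓞 K)}) = 2 ^ Fintype.card (K →ₐ[ℚ] ℂ) := by
  have h1 : Ideal.absNorm (Ideal.span {(2 : 𝓞 K)}) = 2 ^ Module.finrank ℤ (𝓞 K) := by
    rw [Ideal.absNorm_span_singleton]
    have h2 : (2 : 𝓞 K) = algebraMap ℤ (𝓞 K) 2 := by simp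
    rw [h2, Algebra.norm_algebraMap]
    simp [Int.natAbs_pow]
  rw [Ideal.absNorm_apply, Submodule.cardQuot_apply] at h1
  rw [h1, AlgHom.card, RingOfIntegers.rank]

/-- For a number field `K` with `𝓞 K / 2` reduced there is a positive constant such that every
finite residue field `F` of `𝓞 K` has at least `c |F|^(3/2)` affine points with pairwise nonzero
values. -/
theorem numberField_bound {K : Type*} [Field K] [NumberField K]
    [IsReduced (𝓞 K ⧸ Ideal.span {(2 : 𝓞 K)})] :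
    ∃ c : ℝ, 0 < c ∧ ∀ (F : Type*) [Field F] [Finite F] (φ : 𝓞 K →+* F), Function.Surjective φ →
      ∃ m : ℕ, c * (Nat.card F : ℝ) ^ (3 / 2 : ℝ) ≤ m ∧ Big F m := by
  classical
  set E := 𝓞 K ⧸ Ideal.span {(2 : 𝓞 K)} with hE
  have hcard := card_two (K := K)
  have hfin : Finite E := Nat.finite_of_card_ne_zero (by rw [hcard]; positivity)
  let _ : Fintype E := Fintype.ofFinite E
  let ev : 𝓞 K →+* E := Ideal.Quotient.mk _
  have hev : Function.Surjective ev := Ideal.Quotient.mk_surjective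
  choose s hs using hev
  have h2E : (2 : E) = 0 := by
    have h1 : ev 2 = 0 := Ideal.Quotient.eq_zero_iff_mem.2 (Ideal.mem_span_singleton_self _)
    rw [map_ofNat] at h1
    exact h1
  obtain ⟨C₀, hC₀⟩ : ∃ C₀ : ℝ, ∀ w : (K →ₐ[ℚ] ℂ) × E, ‖emb K w.1 (s w.2)‖ ≤ C₀ := by
    obtain ⟨C₀, hC₀⟩ := (Set.finite_range
      (fun w : (K →ₐ[ℚ] ℂ) × E => ‖emb K w.1 (s w.2)‖)).bddAbove
    exact ⟨C₀, fun w => hC₀ (Set.mem_range_self w)⟩
  set C : ℝ := max 1 C₀ with hC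
  have hC1 : 1 ≤ C := le_max_left _ _
  have hCE : Fintype.card E = 2 ^ Fintype.card (K →ₐ[ℚ] ℂ) := by
    rw [← hcard, Nat.card_eq_fintype_card]
  have hne : Nonempty (K →ₐ[ℚ] ℂ) := by
    have h1 : 0 < Fintype.card (K →ₐ[ℚ] ℂ) := by
      rw [AlgHom.card]
      exact Module.finrank_pos
    exact Fintype.card_pos_iff.1 h1
  have hM : (0 : ℝ) < (4 * (10 * C ^ 2)) ^ Fintype.card (K →ₐ[ℚ] ℂ) := by positivity
  refine ⟨(((4 * (10 * C ^ 2)) ^ Fintype.card (K →ₐ[ℚ] ℂ) : ℝ)⁻¹) ^ (3 / 2 : ℝ), by positivity, ?_⟩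
  intro F _ _ φ hφ
  obtain ⟨m, hm, hB⟩ := big_of_prod (emb K) ev h2E (by norm_num) s hs C hC1
    (fun v e => (hC₀ (v, e)).trans (le_max_right _ _)) hCE φ (Nat.card F)
    (fun a ha h0 => card_le_prod φ hφ a ha h0)
  refine ⟨m, ?_, hB⟩
  rw [← Real.mul_rpow (by positivity) (by positivity)]
  exact hm

end Pool.Agent.helper95.LC
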